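import Pool.Agent.H552Res.Fin2
import Pool.Agent.H552Res.W5

/-!
# Lower bounds for `Λ(k, 2)`

`Λ(k, 2)` grows faster than every exponential: for every `C` there is `k₀` with `Λ(k, 2) ≥ C ^ k` for all `k ≥ k₀`. Moreover
`Λ(k, 2) ≥ 3 ^ k - 1` for every odd `k ≥ 3`, and `Λ(k, 2) ≥ 3 ^ (k / 2) - 1` for every even `k ≥ 4`.
-/

set_option autoImplicit false

namespace Pool.Agent.Results.MP_fed790_nt.PairLowerBound

open Pool.Agent.H552Res

theorem result :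
    (∀ C : ℕ, ∃ k₀ : ℕ, ∀ k, k₀ ≤ k → ((C ^ k : ℕ) : ℕ∞) ≤ Lam k 2) ∧
    (∀ k : ℕ, 3 ≤ k → Odd k → ((3 ^ k - 1 : ℕ) : ℕ∞) ≤ Lam k 2) ∧
    (∀ k : ℕ, 4 ≤ k → Even k → ((3 ^ (k / 2) - 1 : ℕ) : ℕ∞) ≤ Lam k 2) := by
  refine ⟨pair_growth, ?_, ?_⟩
  · intro k hk hodd
    exact pair_ge k k (by omega) (fun X B => goodK k (by omega) (by rw [← even_iff_two_dvd]; exact Nat.not_even_iff_odd.2 hodd) X B)
  · intro k hk heven
    obtain ⟨m, rfl⟩ := even_iff_exists_two_mul.1 heven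
    rw [Nat.mul_div_cancel_left m two_pos]
    exact pair_ge (2 * m) m (by omega) (fun X B => good2 m (by omega) X B)

end Pool.Agent.Results.MP_fed790_nt.PairLowerBound
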