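import Pool.Agent.H552Res.W3

/-!
# Lower bounds for `Λ(k, 3)`

`Λ(k, 3)` grows faster than every exponential along the odd `k`: for every `C` there is `k₀` with `Λ(k, 3) ≥ C ^ k` for all odd
`k ≥ k₀`. Moreover `Λ(k, 3) ≥ 2 * 5 ^ (k - 1) - 2` for every odd `k ≥ 3`.
-/

set_option autoImplicit false

namespace Pool.Agent.Results.MP_fed790_nt.TripleLowerBound

open Pool.Agent.H552Res

theorem result :
    (∀ C : ℕ, ∃ k₀ : ℕ, ∀ k, k₀ ≤ k → Odd k → ((C ^ k : ℕ) : ℕ∞) ≤ Lam k 3) ∧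
    (∀ k : ℕ, 3 ≤ k → Odd k → ((2 * 5 ^ (k - 1) - 2 : ℕ) : ℕ∞) ≤ Lam k 3) := by
  refine ⟨triple_growth, fun k hk hodd => ?_⟩
  exact triple_ge k k (by omega)
    (fun X B => goodK k (by omega) (by rw [← even_iff_two_dvd]; exact Nat.not_even_iff_odd.2 hodd) X B)

end Pool.Agent.Results.MP_fed790_nt.TripleLowerBound
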